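import Pool.Agent.Helper27.OT.Defs

/-!
# MP_2857a5_co : the extremal cases, common definitions
-/

set_option autoImplicit false

open Finset
open scoped Classical

namespace OT

noncomputable section

variable {n : ℕ}

/-! ### Trees -/

/-- `u` is `v` or an ancestor of `v`. -/
def PTree.Le (T : PTree n) : Fin n → Fin n → Prop :=
  Relation.ReflTransGen fun a b => (b : ℕ) ≠ 0 ∧ T.par b = a

/-- The subtree at `v`. -/
def PTree.sub (T : PTree n) (v : Fin n) : Finset (Fin n) := univ.filter fun w => T.Le v w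

/-- Neighbours in the tree. -/
def PTree.Nb (T : PTree n) (u v : Fin n) : Prop :=
  ((v : ℕ) ≠ 0 ∧ T.par v = u) ∨ ((u : ℕ) ≠ 0 ∧ T.par u = v)

/-- The arcs of the tree. -/
def PTree.Arc (T : PTree n) (u v : Fin n) : Prop :=
  ((v : ℕ) ≠ 0 ∧ T.par v = u ∧ T.sg v = true) ∨ ((u : ℕ) ≠ 0 ∧ T.par u = v ∧ T.sg u = false)

/-- The vertices at distance at most `k` from `v`. -/
def PTree.ball (T : PTree n) : ℕ → Fin n → Finset (Fin n)
  | 0, v => {v}
  | k + 1, v => T.ball k v ∪ univ.filter fun w => ∃ u ∈ T.ball k v, T.Nb u w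

/-- `v` is a source. -/
def PTree.Src (T : PTree n) (v : Fin n) : Prop := ∀ u, ¬ T.Arc u v

/-- `v` is a sink. -/
def PTree.Snk (T : PTree n) (v : Fin n) : Prop := ∀ u, ¬ T.Arc v u

/-- The parity of the depth. -/
def PTree.col (T : PTree n) (v : Fin n) : Bool :=
  if h : (v : ℕ) = 0 then true else !(T.col (T.par v))
termination_by (v : ℕ)
decreasing_by exact T.lt v h

/-- The vertices `v` such that the edge above `v` leaves `F`. -/
def PTree.bd (T : PTree n) (F : Finset (Fin n)) : Finset (Fin n) :=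
  univ.filter fun v => (v : ℕ) ≠ 0 ∧ ¬ (v ∈ F ↔ T.par v ∈ F)

/-- The same inside the subtree at `z`. -/
def PTree.bdIn (T : PTree n) (z : Fin n) (G : Finset (Fin n)) : Finset (Fin n) :=
  (T.sub z).filter fun v => v ≠ z ∧ ¬ (v ∈ G ↔ T.par v ∈ G)

/-- The tree with all arcs reversed. -/
def PTree.rev (T : PTree n) : PTree n where
  par := T.par
  sg := fun v => !(T.sg v)
  lt := T.lt

/-- The digraph with all arcs reversed. -/
def rev {V : Type} (D : V → V → Prop) : V → V → Prop := fun u v => D v u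

/-! ### Near-bipartite digraphs -/

variable {V : Type} [Fintype V]

/-- `B` and `C` are disjoint sets of about half the vertices, and every vertex of one of them is
joined in both directions to almost all vertices of the other one. -/
structure NearBip (D : V → V → Prop) (B C : Finset V) (κ : ℝ) : Prop where
  disj : Disjoint B C
  cardB : (1 / 2 - κ) * (Fintype.card V : ℝ) ≤ (B.card : ℝ)
  cardC : (1 / 2 - κ) * (Fintype.card V : ℝ) ≤ (C.card : ℝ)
  missB : ∀ s, ∀ b ∈ B, ((C \ adjN D s b).card : ℝ) ≤ κ * (Fintype.card V : ℝ)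
  missC : ∀ s, ∀ c ∈ C, ((B \ adjN D s c).card : ℝ) ≤ κ * (Fintype.card V : ℝ)

/-- Minimum semidegree at least `n / 2 + L`, and no loops. -/
structure SemiDeg (D : V → V → Prop) (L : ℝ) : Prop where
  irr : ∀ v, ¬ D v v
  deg : ∀ s u, (Fintype.card V : ℝ) / 2 + L ≤ ((adjN D s u).card : ℝ)

end

end OT
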