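import Pool.Agent.Helper27.EX.RDefs

/-!
# MP_2857a5_co : the case of two near-cliques, definitions
-/

set_option autoImplicit false

open Finset
open scoped Classical

namespace OT

noncomputable section

variable {n : ℕ} {V : Type} [Fintype V]

/-- `B` and `C` are disjoint sets of about half the vertices, and every vertex of one of them is
joined in both directions to almost all vertices of the same set. -/
structure TwoCl (D : V → V → Prop) (B C : Finset V) (κ : ℝ) : Prop where
  disj : Disjoint B C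
  cardB : (1 / 2 - κ) * (Fintype.card V : ℝ) ≤ (B.card : ℝ)
  cardC : (1 / 2 - κ) * (Fintype.card V : ℝ) ≤ (C.card : ℝ)
  missB : ∀ s, ∀ b ∈ B, ((B \ adjN D s b).card : ℝ) ≤ κ * (Fintype.card V : ℝ)
  missC : ∀ s, ∀ c ∈ C, ((C \ adjN D s c).card : ℝ) ≤ κ * (Fintype.card V : ℝ)

/-- The two sides. -/
def sd (B C : Finset V) (k : Bool) : Finset V := if k = true then B else C

/-- `u` has many neighbours in direction `s` on the side `k`. -/
def Fr (D : V → V → Prop) (B C : Finset V) (γ : ℝ) (u : V) (s k : Bool) : Prop :=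
  γ * (Fintype.card V : ℝ) ≤ ((sd B C k ∩ adjN D s u).card : ℝ)

/-- Disjoint stars with centres in `G`; the leaves avoid `G` and `K`. The star at `u` has the
direction `dl u`. -/
structure Stk (D : V → V → Prop) (Δ : ℕ) (G K : Finset V) (dl : V → Bool)
    (lv : V → Fin (Δ + 1) → V) : Prop where
  adj : ∀ u ∈ G, ∀ j, Adj D (dl u) u (lv u j)
  off : ∀ u ∈ G, ∀ j, lv u j ∉ G ∪ K
  inj : ∀ u ∈ G, ∀ u' ∈ G, ∀ j j', lv u j = lv u' j' → u = u' ∧ j = j'

/-- `u` can be the image of a vertex of the tree whose neighbours in direction `s` are on the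
side `k`. -/
def Us {Δ : ℕ} (D : V → V → Prop) (B C : Finset V) (γ : ℝ) (G : Finset V) (dl : V → Bool)
    (lv : V → Fin (Δ + 1) → V) (u : V) (s k : Bool) : Prop :=
  Fr D B C γ u s k ∨ (u ∈ G ∧ dl u = s ∧ ∀ j, lv u j ∈ sd B C k)

/-- Two families of vertices for the transitions from one side to the other. The vertices of `F δ`
have in-neighbours on the side `δ` and out-neighbours on the side `!δ`; if `kd δ s = false`, then
their neighbours in direction `s` may be on any side. -/
structure Cuts {Δ : ℕ} (D : V → V → Prop) (B C : Finset V) (γ : ℝ) (G K : Finset V)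
    (dl : V → Bool) (lv : V → Fin (Δ + 1) → V) (kd : Bool → Bool → Bool) (F : Bool → Finset V)
    (k : ℕ) : Prop where
  sub : ∀ δ, F δ ⊆ G ∪ K
  disj : Disjoint (F true) (F false)
  card : ∀ δ, k ≤ (F δ).card
  con : ∀ δ, ∀ u ∈ F δ, ∀ s, Us D B C γ G dl lv u s (xor δ s)
  fre : ∀ δ, ∀ u ∈ F δ, ∀ s, kd δ s = false → ∀ l, Us D B C γ G dl lv u s l
  ne : ∃ δ s, kd δ s = false

/-- The host in the case of trees with many sources. -/
structure HostIS (D : V → V → Prop) (Δ : ℕ) (B C X G K : Finset V) (dl : V → Bool)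
    (lv : V → Fin (Δ + 1) → V) (kd : Bool → Bool → Bool) (F : Bool → Finset V) (U : Finset V)
    (γ κ : ℝ) (k : ℕ) : Prop where
  tc : TwoCl D B C κ
  BX : B ⊆ X
  CX : Disjoint C X
  out : ∀ u, Fr D B C γ u true (decide (u ∈ X))
  half : Fintype.card V ≤ 2 * X.card
  half' : (2 * X.card : ℝ) ≤ (1 + κ) * (Fintype.card V : ℝ)
  stk : Stk D Δ G K dl lv
  cuts : Cuts D B C γ G K dl lv kd F k
  UG : U ⊆ G
  UX : U ⊆ X
  UF : ∀ δ, Disjoint U (F δ)
  Uus : ∀ u ∈ U, Us D B C γ G dl lv u true false
  cardU : k ≤ U.card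

/-- The host in the case of trees consisting mainly of directed paths. `lab u s` is a side on which
`u` has many neighbours in direction `s`. -/
structure HostIP (D : V → V → Prop) (Δ : ℕ) (B C : Finset V) (lab : V → Bool → Bool)
    (G K : Finset V) (dl : V → Bool) (lv : V → Fin (Δ + 1) → V) (kd : Bool → Bool → Bool)
    (F : Bool → Finset V) (τ ω : Bool) (U W : Finset V) (γ κ : ℝ) (k : ℕ) : Prop where
  tc : TwoCl D B C κ
  labB : ∀ b ∈ B, ∀ s, lab b s = true
  labC : ∀ c ∈ C, ∀ s, lab c s = false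
  fr : ∀ u s, Fr D B C γ u s (lab u s)
  r0 : (univ.filter fun u => lab u false = true).card ≤ (univ.filter fun u => lab u true = true).card
  r1 : ((univ.filter fun u => lab u true = true).card : ℝ) ≤
    ((univ.filter fun u => lab u false = true).card : ℝ) + κ * (Fintype.card V : ℝ)
  stk : Stk D Δ G K dl lv
  cuts : Cuts D B C γ G K dl lv kd F k
  UG : U ⊆ G
  UF : ∀ δ, Disjoint U (F δ)
  Ulab : ∀ u ∈ U, lab u true = true ∧ lab u false = τ
  Uus : ∀ u ∈ U, Us D B C γ G dl lv u true false
  cardU : (univ.filter fun u => lab u true = true).card + k ≤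
    (univ.filter fun u => lab u false = true).card + U.card
  WG : W ⊆ G
  WF : ∀ δ, Disjoint W (F δ)
  WU : Disjoint W U
  Wlab : ∀ u ∈ W, lab u false = true ∧ lab u true = ω
  Wus : ∀ u ∈ W, Us D B C γ G dl lv u false false
  cardW : (univ.filter fun u => lab u true = true).card ≤
    (univ.filter fun u => lab u false = true).card + k → k ≤ W.card

/-- The tree cut into two sides: every arc between the sides has an end in `Tc true ∪ Tc false`,
and the neighbours in direction `s` of a vertex of `Tc δ` are on the prescribed side unless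
`kd δ s = false`. -/
structure TreeC (T : PTree n) (R : ℕ) (kd : Bool → Bool → Bool) (side : Fin n → Bool)
    (Tc : Bool → Finset (Fin n)) : Prop where
  disj : Disjoint (Tc true) (Tc false)
  sep : ∀ a ∈ Tc true ∪ Tc false, ∀ b ∈ Tc true ∪ Tc false, a ≠ b → b ∉ T.ball R a
  arc : ∀ x y, T.Arc x y → side x = side y ∨ x ∈ Tc true ∪ Tc false ∨ y ∈ Tc true ∪ Tc false
  con : ∀ δ, ∀ x ∈ Tc δ, ∀ s, kd δ s = true → ∀ y, Adj T.Arc s x y → side y = xor δ s

/-- The tree in the case of many sources: `M` is a set of sources. -/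
structure TreeIS (T : PTree n) (kd : Bool → Bool → Bool) (side : Fin n → Bool)
    (Tc : Bool → Finset (Fin n)) (M : Finset (Fin n)) : Prop where
  tc : TreeC T 3 kd side Tc
  src : ∀ x ∈ M, T.Src x
  nb : ∀ x ∈ M, ∀ y, T.Nb x y → side y = side x
  off : Disjoint M (Tc true ∪ Tc false)
  sep : ∀ a ∈ Tc true ∪ Tc false ∪ M, ∀ b ∈ Tc true ∪ Tc false ∪ M, a ≠ b → b ∉ T.ball 3 a

/-- The tree in the other case. -/
structure TreeIP (T : PTree n) (kd : Bool → Bool → Bool) (side : Fin n → Bool)
    (Tc : Bool → Finset (Fin n)) (A : Finset (Fin n)) (seg : Fin n → ℕ → Fin n) : Prop where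
  tc : TreeC T 3 kd side Tc
  segs : Segs T T.col (Tc true ∪ Tc false) A seg
  const : ∀ a ∈ A, ∀ j, j ≤ 8 → side (seg a j) = side (seg a 0)

/-- The hosts in `H` are placed on segments: `x ∈ Hp` is mapped to `φ x`, and `side'` is the new
side function. `ut u s` is the side of the neighbours in direction `s` of the vertex mapped to
`u`. -/
structure Placed (T : PTree n) (side : Fin n → Bool) (A : Finset (Fin n))
    (seg : Fin n → ℕ → Fin n) (H : Finset V) (ut : V → Bool → Bool) (d : ℤ)
    (Hp : Finset (Fin n)) (φ : Fin n → V) (side' : Fin n → Bool) : Prop where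
  inj : Set.InjOn φ Hp
  image : Hp.image φ = H
  mem : ∀ x ∈ Hp, ∃ a ∈ A, ∃ j, 1 ≤ j ∧ j ≤ 7 ∧ x = seg a j
  off : ∀ x, (∀ a ∈ A, ∀ j, 1 ≤ j → j ≤ 7 → x ≠ seg a j) → side' x = side x
  arc : ∀ x y, T.Arc x y → x ∉ Hp → y ∉ Hp → side x = side y → side' x = side' y
  nb : ∀ x ∈ Hp, ∀ s y, Adj T.Arc s x y → side' y = ut (φ x) s
  sep : ∀ a ∈ Hp, ∀ b ∈ Hp, a ≠ b → b ∉ T.ball 3 a
  count : ((univ.filter fun y => y ∉ Hp ∧ side' y = true).card : ℤ) =
    (univ.filter fun y => side y = true).card -
    (H.filter fun u => ut u false = true ∧ ut u true = true).card -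
    6 * (H.filter fun u => ut u false = true ∧ ut u true = false).card - d

end

end OT
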