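import Pool.Agent.Helper27.EX.Defs

/-!
# MP_2857a5_co : the layout lemma, definitions
-/

set_option autoImplicit false

open Finset
open scoped Classical

namespace OT

noncomputable section

variable {n : ℕ}

/-- The far children of `p`. -/
def PTree.far (T : PTree n) (far : Fin n → Bool) (p : Fin n) : Finset (Fin n) :=
  (T.ch p).filter fun c => far c = true

/-- The tops of an item: `t` itself, or (for a group, `b = true`) the far children of `t`. -/
def PTree.tops (T : PTree n) (far : Fin n → Bool) (b : Bool) (t : Fin n) : Finset (Fin n) :=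
  if b = true then T.far far t else {t}

/-- The vertices below (or equal to) a top of the item. -/
def PTree.item (T : PTree n) (far : Fin n → Bool) (b : Bool) (t : Fin n) : Finset (Fin n) :=
  (T.tops far b t).biUnion T.sub

/-- Above every vertex outside `Z` the edge is either far or changes `pos`. -/
def PTree.Alt (T : PTree n) (pos far : Fin n → Bool) (Z : Finset (Fin n)) : Prop :=
  ∀ v : Fin n, (v : ℕ) ≠ 0 → v ∉ Z → far v = true ∨ pos v ≠ pos (T.par v)

/-- `F` is a set of vertices (to be flipped); the edges leaving `F` are the edges above the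
vertices of `Q`, and all edges to the far children of the vertices of `P`. -/
structure Layout (T : PTree n) (pos far : Fin n → Bool) (R : ℕ)
    (F P Q : Finset (Fin n)) : Prop where
  bd : ∀ v ∈ T.bd F, v ∈ Q ∨ (far v = true ∧ T.par v ∈ P)
  sgl : ∀ v ∈ Q, v ∈ T.bd F ∧ xor (pos v) (decide (v ∈ F)) = true
  gFar : ∀ p ∈ P, ∀ c ∈ T.ch p, far c = true → c ∈ T.bd F
  gNear : ∀ p ∈ P, ∀ c ∈ T.ch p, far c = false → c ∉ T.bd F
  gSelf : ∀ p ∈ P, p ∉ T.bd F
  sep : ∀ a ∈ P ∪ Q, ∀ b ∈ P ∪ Q, a ≠ b → b ∉ T.ball R a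

/-- The same inside the subtree at `z`, away from `z` and `Z`. -/
structure LayIn (T : PTree n) (pos far : Fin n → Bool) (R : ℕ) (Z : Finset (Fin n)) (z : Fin n)
    (G P Q : Finset (Fin n)) : Prop where
  sub : G ⊆ T.sub z
  top : z ∉ G
  bd : ∀ v ∈ T.bdIn z G, v ∈ Q ∨ (far v = true ∧ T.par v ∈ P)
  sgl : ∀ v ∈ Q, v ∈ T.bdIn z G ∧ xor (pos v) (decide (v ∈ G)) = true
  gFar : ∀ p ∈ P, ∀ c ∈ T.ch p, far c = true → c ∈ T.bdIn z G
  gNear : ∀ p ∈ P, ∀ c ∈ T.ch p, far c = false → c ∉ T.bdIn z G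
  gSelf : ∀ p ∈ P, p ∈ T.sub z ∧ p ∉ T.bdIn z G
  away : ∀ a ∈ P ∪ Q, a ∉ Z ∧ a ∉ T.ball R z
  sep : ∀ a ∈ P ∪ Q, ∀ b ∈ P ∪ Q, a ≠ b → b ∉ T.ball R a

/-- Six items, whose tops are far apart, each with many vertices of `M` not below earlier ones. -/
structure Parts (T : PTree n) (pos far : Fin n → Bool) (R : ℕ) (M : Finset (Fin n)) (η' : ℝ)
    (b : Fin 6 → Bool) (t : Fin 6 → Fin n) : Prop where
  sep : ∀ i j, i ≠ j → t j ∉ T.ball R (t i)
  root : ∀ i, ∀ z : Fin n, (z : ℕ) = 0 → t i ∉ T.ball R z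
  pos : ∀ i, b i = false → pos (t i) = decide (3 ≤ (i : ℕ))
  new : ∀ i j, i < j → t j ∉ T.item far (b i) (t i)
  mass : ∀ j, η' * (n : ℝ) ≤ ((M ∩ (T.item far (b j) (t j) \
    (univ.filter fun i => i < j).biUnion fun i => T.item far (b i) (t i))).card : ℝ)

end

end OT
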