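import Pool.Agent.Helper27.EX.LDefs

/-!
# MP_2857a5_co : the near-bipartite case, definitions
-/

set_option autoImplicit false

open Finset
open scoped Classical

namespace OT

noncomputable section

variable {n : ℕ} {V : Type} [Fintype V]

/-- The data of the embedding lemma: special vertices `Sp` of the tree and their images `ψ`, the
classes `κ` of the other vertices of the tree, and reserved images `lam` for some neighbours `Lf`
of special vertices. -/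
structure MetData (D : V → V → Prop) (T : PTree n) {I : Type} (W : I → Finset V)
    (Rel : I → I → Prop) (ρ : ℝ) (Sp : Finset (Fin n)) (ψ : Fin n → V) (κ : Fin n → I)
    (Lf : Finset (Fin n)) (lam : Fin n → V) : Prop where
  sep : ∀ a ∈ Sp, ∀ b ∈ Sp, a ≠ b → b ∉ T.ball 3 a
  inj : Set.InjOn ψ Sp
  all : ∀ v, (∀ k, v ∉ W k) → v ∈ Sp.image ψ
  arc : ∀ x y, T.Arc x y → x ∉ Sp → y ∉ Sp → Rel (κ x) (κ y)
  linj : Set.InjOn lam Lf
  leaf : ∀ y ∈ Lf, y ∉ Sp ∧ lam y ∈ W (κ y) ∧ lam y ∉ Sp.image ψ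
  outL : ∀ x ∈ Sp, ∀ y ∈ Lf, T.Arc x y → D (ψ x) (lam y)
  inL : ∀ x ∈ Sp, ∀ y ∈ Lf, T.Arc y x → D (lam y) (ψ x)
  outF : ∀ x ∈ Sp, ∀ y, y ∉ Lf → T.Arc x y →
    ρ * (n : ℝ) ≤ ((W (κ y) ∩ adjN D true (ψ x)).card : ℝ)
  inF : ∀ x ∈ Sp, ∀ y, y ∉ Lf → T.Arc y x →
    ρ * (n : ℝ) ≤ ((W (κ y) ∩ adjN D false (ψ x)).card : ℝ)
  count : ∀ k, (univ.filter fun y => y ∉ Sp ∧ κ y = k).card = (W k \ Sp.image ψ).card

/-- The conclusion of the embedding lemma for given constants. -/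
def MetHolds (Δ : ℕ) (ζ ρ : ℝ) (I : Type) (η θ : ℝ) (N : ℕ) : Prop :=
  ∀ n : ℕ, N ≤ n → ∀ T : PTree n, T.Deg Δ → ∀ (V : Type) [Fintype V], Fintype.card V = n →
    ∀ (D : V → V → Prop) (W : I → Finset V), (∀ k l, k ≠ l → Disjoint (W k) (W l)) →
    (∀ k, ζ * (n : ℝ) ≤ ((W k).card : ℝ)) → ∀ Rel : I → I → Prop,
    (∀ k l, Rel k l → ∀ w ∈ W k, ((W l \ adjN D true w).card : ℝ) ≤ η * (n : ℝ)) →
    (∀ k l, Rel k l → ∀ w ∈ W l, ((W k \ adjN D false w).card : ℝ) ≤ η * (n : ℝ)) →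
    ∀ (Sp : Finset (Fin n)) (ψ : Fin n → V) (κ : Fin n → I) (Lf : Finset (Fin n))
      (lam : Fin n → V), (Sp.card : ℝ) ≤ θ * (n : ℝ) →
    MetData D T W Rel ρ Sp ψ κ Lf lam → T.Emb D

/-- Disjoint stars with centres in `S` and leaves `lv u j` in `Y`. -/
structure Stars (D : V → V → Prop) (s : Bool) (d : ℕ) (S Y : Finset V)
    (lv : V → Fin d → V) : Prop where
  adj : ∀ u ∈ S, ∀ j, lv u j ∈ Y ∧ Adj D s u (lv u j) ∧ lv u j ∉ S
  inj : ∀ u ∈ S, ∀ u' ∈ S, ∀ j j', lv u j = lv u' j' → u = u' ∧ j = j'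

/-- The host in the case of trees with many sources. `X` is the set of the vertices regarded as
having out-neighbours in `C`. -/
structure HostS (D : V → V → Prop) (Δ : ℕ) (B C X : Finset V) (τ : Bool) (S S' : Finset V)
    (lv lv' : V → Fin (Δ + 1) → V) (γ κ : ℝ) (k : ℕ) : Prop where
  nb : NearBip D B C κ
  BX : B ⊆ X
  CX : Disjoint C X
  out1 : ∀ u ∈ X, γ * (Fintype.card V : ℝ) ≤ ((C ∩ adjN D true u).card : ℝ)
  out0 : ∀ u, u ∉ X → γ * (Fintype.card V : ℝ) ≤ ((B ∩ adjN D true u).card : ℝ)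
  half : Fintype.card V ≤ 2 * X.card
  half' : (2 * X.card : ℝ) ≤ (1 + κ) * (Fintype.card V : ℝ)
  SX : S ⊆ X
  inS : ∀ u ∈ S, γ * (Fintype.card V : ℝ) ≤
    (((if τ = true then C else B) ∩ adjN D false u).card : ℝ)
  st : Stars D true (Δ + 1) S B lv
  cardS : 2 * X.card + 2 * k ≤ Fintype.card V + 2 * S.card
  SX' : Disjoint S' X
  st' : Stars D true (Δ + 1) S' C lv'
  cardS' : 2 * X.card ≤ Fintype.card V + 4 * k → k ≤ S'.card

/-- The layout of a tree with many sources: `pos v = true` means that `v` goes to the side `B`;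
the edges with both ends on the same side are the arcs `x → hd x` with `x ∈ Tl`. -/
structure TreeS (T : PTree n) (τ : Bool) (K : ℕ) (η : ℝ) (pos : Fin n → Bool)
    (Tl : Finset (Fin n)) (hd : Fin n → Fin n) (M₁ M₀ : Finset (Fin n)) : Prop where
  cardTl : Tl.card ≤ K * (Nat.log 2 n + 1)
  bal : |2 * ((univ.filter fun v => pos v = true).card : ℤ) - n| ≤ K
  m1 : η * (n : ℝ) ≤ (M₁.card : ℝ)
  m0 : η * (n : ℝ) ≤ (M₀.card : ℝ)
  src : ∀ x ∈ M₁ ∪ M₀, T.Src x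
  pos1 : ∀ x ∈ M₁, pos x = true
  pos0 : ∀ x ∈ M₀, pos x = false
  sep : ∀ a ∈ Tl ∪ M₁ ∪ M₀, ∀ b ∈ Tl ∪ M₁ ∪ M₀, a ≠ b → b ∉ T.ball 3 a
  tl : ∀ x ∈ Tl, x ∉ M₁ ∪ M₀ ∧ T.Arc x (hd x) ∧ pos x = τ ∧ pos (hd x) = τ
  arc : ∀ x y, T.Arc x y → pos x ≠ pos y ∨ (x ∈ Tl ∧ y = hd x)

/-- The host in the case of trees consisting mainly of directed paths. `o u = true` if `u` is
regarded as having out-neighbours in `C`, `i u = true` if it is regarded as having in-neighbours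
in `B`. -/
structure HostP (D : V → V → Prop) (Δ : ℕ) (B C : Finset V) (o i : V → Bool) (τ ω : Bool)
    (S S' : Finset V) (lv lv' : V → Fin (Δ + 1) → V) (γ κ : ℝ) (k : ℕ) : Prop where
  nb : NearBip D B C κ
  labB : ∀ b ∈ B, o b = true ∧ i b = false
  labC : ∀ c ∈ C, o c = false ∧ i c = true
  out : ∀ u, γ * (Fintype.card V : ℝ) ≤
    (((if o u = true then C else B) ∩ adjN D true u).card : ℝ)
  inn : ∀ u, γ * (Fintype.card V : ℝ) ≤
    (((if i u = true then B else C) ∩ adjN D false u).card : ℝ)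
  r0 : (univ.filter fun u => i u = true).card ≤ (univ.filter fun u => o u = true).card
  r1 : ((univ.filter fun u => o u = true).card : ℝ) ≤
    ((univ.filter fun u => i u = true).card : ℝ) + κ * (Fintype.card V : ℝ)
  labS : ∀ u ∈ S, o u = true ∧ i u = !τ
  st : Stars D true (Δ + 1) S B lv
  cardS : (univ.filter fun u => o u = true).card + 3 * k ≤
    (univ.filter fun u => i u = true).card + S.card
  labS' : ∀ u ∈ S', i u = true ∧ o u = ω
  st' : Stars D false (Δ + 1) S' C lv'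
  cardS' : (univ.filter fun u => o u = true).card ≤ (univ.filter fun u => i u = true).card + 2 * k →
    4 * k ≤ S'.card

/-- Directed bare paths `seg a 0 → seg a 1 → ... → seg a 8` of the tree, alternating between the
sides, starting and ending on the side `true`, far from each other and from `Bad`. -/
structure Segs (T : PTree n) (pos : Fin n → Bool) (Bad A : Finset (Fin n))
    (seg : Fin n → ℕ → Fin n) : Prop where
  arc : ∀ a ∈ A, ∀ j, j < 8 → T.Arc (seg a j) (seg a (j + 1))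
  deg : ∀ a ∈ A, ∀ j, j < 7 → ∀ y, T.Nb (seg a (j + 1)) y → y = seg a j ∨ y = seg a (j + 2)
  pos : ∀ a ∈ A, ∀ j, j ≤ 8 → pos (seg a j) = decide (Even j)
  inj : ∀ a ∈ A, ∀ j j', j ≤ 8 → j' ≤ 8 → seg a j = seg a j' → j = j'
  dist : ∀ a ∈ A, ∀ j j', j + 4 ≤ j' → j' ≤ 8 →
    seg a j' ∉ T.ball 3 (seg a j) ∧ seg a j ∉ T.ball 3 (seg a j')
  sep : ∀ a ∈ A, ∀ a' ∈ A, a ≠ a' → ∀ j j', j ≤ 8 → j' ≤ 8 → seg a' j' ∉ T.ball 3 (seg a j)
  bad : ∀ a ∈ A, ∀ j, j ≤ 8 → ∀ b ∈ Bad, seg a j ∉ T.ball 3 b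

/-- The layout of a tree consisting mainly of directed paths. -/
structure TreeP (T : PTree n) (τ : Bool) (K : ℕ) (η : ℝ) (pos : Fin n → Bool)
    (Tl : Finset (Fin n)) (hd : Fin n → Fin n) (A : Finset (Fin n))
    (seg : Fin n → ℕ → Fin n) : Prop where
  cardTl : Tl.card ≤ K * (Nat.log 2 n + 1)
  bal : |2 * ((univ.filter fun v => pos v = true).card : ℤ) - n| ≤ K
  cardA : η * (n : ℝ) ≤ (A.card : ℝ)
  sep : ∀ a ∈ Tl, ∀ b ∈ Tl, a ≠ b → b ∉ T.ball 3 a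
  tl : ∀ x ∈ Tl, T.Arc x (hd x) ∧ pos x = τ ∧ pos (hd x) = τ
  arc : ∀ x y, T.Arc x y → pos x ≠ pos y ∨ (x ∈ Tl ∧ y = hd x)
  segs : Segs T pos Tl A seg

end

end OT
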