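import Pool.Agent.Helper27.EX.IDefs
import Pool.Agent.Helper28.EX.HS
import Pool.Agent.Helper57.EX.TS
import Pool.Agent.Helper20.EX3.Final

/-!
# MP_2857a5_co : the first extremal case (two near-cliques)
-/

set_option autoImplicit false

open Finset
open scoped Classical

namespace OT

noncomputable section

/-! ### Monotonicity and reversal -/

theorem r1_tc_mono {V : Type} [Fintype V] {D : V → V → Prop} {B C : Finset V} {κ κ' : ℝ}
    (h : TwoCl D B C κ) (hk : κ ≤ κ') : TwoCl D B C κ' := by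
  have hn : (0 : ℝ) ≤ (Fintype.card V : ℝ) := by positivity
  have h1 : κ * (Fintype.card V : ℝ) ≤ κ' * (Fintype.card V : ℝ) :=
    mul_le_mul_of_nonneg_right hk hn
  refine ⟨h.disj, ?_, ?_, fun s b hb => (h.missB s b hb).trans h1,
    fun s c hc => (h.missC s c hc).trans h1⟩
  · have := h.cardB
    nlinarith
  · have := h.cardC
    nlinarith

theorem r1_tc_rev {V : Type} [Fintype V] {D : V → V → Prop} {B C : Finset V} {κ : ℝ}
    (h : TwoCl D B C κ) : TwoCl (rev D) B C κ := by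
  refine ⟨h.disj, h.cardB, h.cardC, fun s b hb => ?_, fun s c hc => ?_⟩
  · rw [x3_adjN_rev]
    exact h.missB _ b hb
  · rw [x3_adjN_rev]
    exact h.missC _ c hc

/-- The statement of the module TIS. -/
def StTIS : Prop := ∀ (Δ : ℕ) (η : ℝ), 0 < η → ∃ (K : ℕ) (η' : ℝ), 0 < η' ∧
    ∀ (n : ℕ) (T : PTree n), T.Deg Δ → K ≤ n →
    η * (n : ℝ) ≤ ((univ.filter fun v => T.Src v).card : ℝ) →
    ∀ kd : Bool → Bool → Bool, (∃ δ s, kd δ s = false) →
    ∀ m : ℤ, |(m : ℝ)| ≤ η' * (n : ℝ) →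
    ∃ (side : Fin n → Bool) (Tc : Bool → Finset (Fin n)) (M : Finset (Fin n)),
      TreeIS T kd side Tc M ∧
      (∀ δ, (Tc δ).card ≤ K * (Nat.log 2 n + 1)) ∧
      |2 * ((univ.filter fun v => side v = true).card : ℤ) - n - m| ≤ K ∧
      ∀ k, η' * (n : ℝ) ≤ ((M.filter fun v => side v = k).card : ℝ)

/-- The statement of the module TIP. -/
def StTIP : Prop := ∀ (Δ : ℕ), ∃ (η : ℝ) (K : ℕ) (η' : ℝ), 0 < η ∧ 0 < η' ∧
    ∀ (n : ℕ) (T : PTree n), T.Deg Δ → K ≤ n →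
    ((univ.filter fun v => T.Src v).card : ℝ) ≤ η * (n : ℝ) →
    ((univ.filter fun v => T.Snk v).card : ℝ) ≤ η * (n : ℝ) →
    ∀ kd : Bool → Bool → Bool, (∃ δ s, kd δ s = false) →
    ∀ m : ℤ, |(m : ℝ)| ≤ η' * (n : ℝ) →
    ∃ (side : Fin n → Bool) (Tc : Bool → Finset (Fin n)) (A : Finset (Fin n))
      (seg : Fin n → ℕ → Fin n), TreeIP T kd side Tc A seg ∧
      (∀ δ, (Tc δ).card ≤ K * (Nat.log 2 n + 1)) ∧
      |2 * ((univ.filter fun v => side v = true).card : ℤ) - n - m| ≤ K ∧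
      ∀ k, η' * (n : ℝ) ≤ ((A.filter fun a => side (seg a 0) = k).card : ℝ)

/-- The statement of the module HIS. -/
def StHIS : Prop := ∀ (Δ K : ℕ), ∃ γ : ℝ, 0 < γ ∧ ∀ κ : ℝ, 0 < κ → ∃ (κ₀ c : ℝ) (N : ℕ), 0 < κ₀ ∧
    ∀ (V : Type) [Fintype V], N ≤ Fintype.card V → ∀ (D : V → V → Prop) (B₀ C₀ : Finset V),
    TwoCl D B₀ C₀ κ₀ → SemiDeg D (c * Real.log (Fintype.card V)) →
    ∃ (B C X G K' : Finset V) (dl : V → Bool) (lv : V → Fin (Δ + 1) → V)
      (kd : Bool → Bool → Bool) (F : Bool → Finset V) (U : Finset V),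
      HostIS D Δ B C X G K' dl lv kd F U γ κ (K * (Nat.log 2 (Fintype.card V) + 1))

/-- The statement of the module HIP. -/
def StHIP : Prop := ∀ (Δ K : ℕ), ∃ γ : ℝ, 0 < γ ∧ ∀ κ : ℝ, 0 < κ → ∃ (κ₀ c : ℝ) (N : ℕ), 0 < κ₀ ∧
    ∀ (V : Type) [Fintype V], N ≤ Fintype.card V → ∀ (D : V → V → Prop) (B₀ C₀ : Finset V),
    TwoCl D B₀ C₀ κ₀ → SemiDeg D (c * Real.log (Fintype.card V)) →
    ∃ (D' : V → V → Prop) (B C : Finset V) (lab : V → Bool → Bool) (G K' : Finset V)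
      (dl : V → Bool) (lv : V → Fin (Δ + 1) → V) (kd : Bool → Bool → Bool)
      (F : Bool → Finset V) (τ ω : Bool) (U W : Finset V), (D' = D ∨ D' = rev D) ∧
      HostIP D' Δ B C lab G K' dl lv kd F τ ω U W γ κ
        (K * (Nat.log 2 (Fintype.card V) + 1))

/-- The statement of the module AIS. -/
def StAIS : Prop := ∀ (n Δ : ℕ) (T : PTree n), T.Deg Δ → ∀ (V : Type) [Fintype V],
    Fintype.card V = n → ∀ (D : V → V → Prop) (B C X G K : Finset V) (dl : V → Bool)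
    (lv : V → Fin (Δ + 1) → V) (kd : Bool → Bool → Bool) (F : Bool → Finset V) (U : Finset V)
    (γ κ : ℝ) (k : ℕ), HostIS D Δ B C X G K dl lv kd F U γ κ (8 * k) →
    ∃ m : ℤ, |(m : ℝ)| ≤ κ * (n : ℝ) + 8 * k ∧
      ∀ (side : Fin n → Bool) (Tc : Bool → Finset (Fin n)) (M : Finset (Fin n)),
      TreeIS T kd side Tc M → (∀ δ, (Tc δ).card ≤ k) →
      |2 * ((univ.filter fun v => side v = true).card : ℤ) - n - m| ≤ k →
      (∀ l, 2 * κ * (n : ℝ) + 8 * k ≤ ((M.filter fun v => side v = l).card : ℝ)) →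
      ∃ (Sp : Finset (Fin n)) (ψ : Fin n → V) (Lf : Finset (Fin n)) (lam : Fin n → V),
        (Sp.card : ℝ) ≤ 2 * κ * (n : ℝ) + 10 * k ∧
        MetData D T (sd B C) (fun k l => k = l) γ Sp ψ side Lf lam

/-- The statement of the module AIP. -/
def StAIP : Prop := ∀ (n Δ : ℕ) (T : PTree n), T.Deg Δ → ∀ (V : Type) [Fintype V],
    Fintype.card V = n → ∀ (D : V → V → Prop) (B C : Finset V) (lab : V → Bool → Bool)
    (G K : Finset V) (dl : V → Bool) (lv : V → Fin (Δ + 1) → V) (kd : Bool → Bool → Bool)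
    (F : Bool → Finset V) (τ ω : Bool) (U W : Finset V) (γ κ : ℝ) (k : ℕ),
    HostIP D Δ B C lab G K dl lv kd F τ ω U W γ κ (41 * k) →
    ∃ m : ℤ, |(m : ℝ)| ≤ 100 * κ * (n : ℝ) + 5000 * k ∧
      ∀ (side : Fin n → Bool) (Tc : Bool → Finset (Fin n)) (A : Finset (Fin n))
        (seg : Fin n → ℕ → Fin n), TreeIP T kd side Tc A seg → (∀ δ, (Tc δ).card ≤ k) →
      |2 * ((univ.filter fun v => side v = true).card : ℤ) - n - m| ≤ k →
      (∀ l, 3 * κ * (n : ℝ) + 200 * k ≤ ((A.filter fun a => side (seg a 0) = l).card : ℝ)) →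
      ∃ (Sp : Finset (Fin n)) (ψ : Fin n → V) (side' : Fin n → Bool) (Lf : Finset (Fin n))
        (lam : Fin n → V), (Sp.card : ℝ) ≤ 3 * κ * (n : ℝ) + 300 * k ∧
        MetData D T (sd B C) (fun k l => k = l) γ Sp ψ side' Lf lam

/-- Application of the embedding theorem. -/
theorem r1_met {n : ℕ} {V : Type} [Fintype V] (hV : Fintype.card V = n) (hn0 : 0 ≤ (n : ℝ))
    {Δ : ℕ} {ρ η θ κ : ℝ} {N : ℕ} (hM : MetHolds Δ (1 / 3) ρ Bool η θ N) (hN : N ≤ n)
    (T : PTree n) (hT : T.Deg Δ) (D : V → V → Prop) (B C : Finset V) (htc : TwoCl D B C κ)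
    (hκη : κ ≤ η) (hκ6 : κ ≤ 1 / 6) (Sp : Finset (Fin n)) (hSp : (Sp.card : ℝ) ≤ θ * n)
    (ψ : Fin n → V) (lab : Fin n → Bool) (Lf : Finset (Fin n)) (lam : Fin n → V)
    (hD : MetData D T (sd B C) (fun k l => k = l) ρ Sp ψ lab Lf lam) : T.Emb D := by
  have hB := htc.cardB
  have hC := htc.cardC
  rw [hV] at hB hC
  have e1 : κ * (n : ℝ) ≤ η * n := mul_le_mul_of_nonneg_right hκη hn0
  refine hM n hN T hT V hV D (sd B C) ?_ ?_
    (fun a b => a = b) ?_ ?_ Sp ψ lab Lf lam hSp hD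
  · intro k l hkl
    cases k <;> cases l
    · exact absurd rfl hkl
    · simpa [sd] using htc.disj.symm
    · simpa [sd] using htc.disj
    · exact absurd rfl hkl
  · intro k
    cases k
    · simp only [sd, Bool.false_eq_true, if_false]
      nlinarith
    · simp only [sd, if_true]
      nlinarith
  · intro k l hkl w hw
    subst hkl
    cases k
    · have := htc.missC true w (by simpa [sd] using hw)
      rw [hV] at this
      simpa [sd] using this.trans e1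
    · have := htc.missB true w (by simpa [sd] using hw)
      rw [hV] at this
      simpa [sd] using this.trans e1
  · intro k l hkl w hw
    subst hkl
    cases k
    · have := htc.missC false w (by simpa [sd] using hw)
      rw [hV] at this
      simpa [sd] using this.trans e1
    · have := htc.missB false w (by simpa [sd] using hw)
      rw [hV] at this
      simpa [sd] using this.trans e1

/-- Many sources. -/
theorem r1_caseS (hMet : StMet) (hTIS : StTIS) (hHIS : StHIS) (hAIS : StAIS) (Δ : ℕ) (η : ℝ)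
    (hη : 0 < η) : ∃ (κ c : ℝ) (N : ℕ), 0 < κ ∧ ∀ n : ℕ, N ≤ n →
    ∀ (V : Type) [Fintype V], Fintype.card V = n → ∀ (D : V → V → Prop) (B C : Finset V),
    TwoCl D B C κ → SemiDeg D (c * Real.log n) → ∀ T : PTree n, T.Deg Δ →
    η * (n : ℝ) ≤ ((univ.filter fun v => T.Src v).card : ℝ) → T.Emb D := by
  obtain ⟨K, η', hη', hT1⟩ := hTIS Δ η hη
  obtain ⟨γ, hγ, hH⟩ := hHIS Δ (8 * K)
  obtain ⟨η₁, θ, N₁, hη₁, hθ, hM⟩ := hMet Δ (1 / 3) γ (by norm_num) hγ Bool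
  obtain ⟨κ, hκ, k1, k2, k3, k4⟩ : ∃ κ : ℝ, 0 < κ ∧ κ ≤ η₁ ∧ κ ≤ θ / 16 ∧ κ ≤ η' / 8 ∧
      κ ≤ 1 / 6 := by
    refine ⟨min (min η₁ (θ / 16)) (min (η' / 8) (1 / 6)), by positivity, ?_, ?_, ?_, ?_⟩
    · exact (min_le_left _ _).trans (min_le_left _ _)
    · exact (min_le_left _ _).trans (min_le_right _ _)
    · exact (min_le_right _ _).trans (min_le_left _ _)
    · exact (min_le_right _ _).trans (min_le_right _ _)
  obtain ⟨κ₀, c, N₂, hκ₀, hH2⟩ := hH κ hκ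
  obtain ⟨N₃, hN₃⟩ := ts_log (10 * K) (min (η' / 2) (θ / 2)) (by positivity)
  refine ⟨κ₀, c, max (max N₁ N₂) (max N₃ K), hκ₀, ?_⟩
  intro n hn V _ hV D B₀ C₀ hnb hS T hT hsrc
  have h1 : N₁ ≤ n := (le_max_left _ _).trans ((le_max_left _ _).trans hn)
  have h2 : N₂ ≤ n := (le_max_right _ _).trans ((le_max_left _ _).trans hn)
  have h3 : N₃ ≤ n := (le_max_left _ _).trans ((le_max_right _ _).trans hn)
  have h4 : K ≤ n := (le_max_right _ _).trans ((le_max_right _ _).trans hn)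
  have hn0 : (0 : ℝ) ≤ n := by positivity
  have hlog := hN₃ n h3
  obtain ⟨B, C, X, G, K', dl, lv, kd, F, U, hHost⟩ :=
    hH2 V (hV ▸ h2) D B₀ C₀ hnb (by rw [hV]; exact hS)
  rw [hV] at hHost
  set k : ℕ := K * (Nat.log 2 n + 1) with hk
  have hk8 : 8 * K * (Nat.log 2 n + 1) = 8 * k := by rw [hk]; ring
  rw [hk8] at hHost
  have hkR : (k : ℝ) = (K : ℝ) * ((Nat.log 2 n : ℝ) + 1) := by rw [hk]; push_cast; ring
  have hlog' : 10 * (k : ℝ) ≤ min (η' / 2) (θ / 2) * n := by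
    refine le_trans ?_ hlog
    rw [hkR]
    push_cast
    linarith
  have hl1 : 10 * (k : ℝ) ≤ η' / 2 * n :=
    hlog'.trans (mul_le_mul_of_nonneg_right (min_le_left _ _) hn0)
  have hl2 : 10 * (k : ℝ) ≤ θ / 2 * n :=
    hlog'.trans (mul_le_mul_of_nonneg_right (min_le_right _ _) hn0)
  have hk0 : (0 : ℝ) ≤ k := by positivity
  have hKk : (K : ℤ) ≤ k := by
    have : K ≤ k := by rw [hk]; exact Nat.le_mul_of_pos_right _ (by omega)
    exact_mod_cast this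
  have hκn : κ * (n : ℝ) ≤ η' / 8 * n := mul_le_mul_of_nonneg_right k3 hn0
  obtain ⟨m, hm, hA⟩ := hAIS n Δ T hT V hV D B C X G K' dl lv kd F U γ κ k hHost
  obtain ⟨side, Tc, M, hTree, hTc, hbal, hMc⟩ := hT1 n T hT h4 hsrc kd hHost.cuts.ne m (by
    linarith)
  obtain ⟨Sp, ψ, Lf, lam, hSp, hData⟩ := hA side Tc M hTree hTc (hbal.trans hKk) (fun l => by
    refine le_trans ?_ (hMc l)
    linarith)
  refine r1_met hV hn0 hM h1 T hT D B C hHost.tc k1 k4 Sp ?_ ψ side Lf lam hData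
  have : 2 * κ * (n : ℝ) ≤ θ / 2 * n := mul_le_mul_of_nonneg_right (by linarith) hn0
  linarith

/-- Few sources and few sinks. -/
theorem r1_caseP (hMet : StMet) (hTIP : StTIP) (hHIP : StHIP) (hAIP : StAIP) (Δ : ℕ) :
    ∃ (η κ c : ℝ) (N : ℕ), 0 < η ∧ 0 < κ ∧ ∀ n : ℕ, N ≤ n →
    ∀ (V : Type) [Fintype V], Fintype.card V = n → ∀ (D : V → V → Prop) (B C : Finset V),
    TwoCl D B C κ → SemiDeg D (c * Real.log n) → ∀ T : PTree n, T.Deg Δ →
    ((univ.filter fun v => T.Src v).card : ℝ) ≤ η * (n : ℝ) →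
    ((univ.filter fun v => T.Snk v).card : ℝ) ≤ η * (n : ℝ) → T.Emb D := by
  obtain ⟨η, K, η', hη, hη', hT1⟩ := hTIP Δ
  obtain ⟨γ, hγ, hH⟩ := hHIP Δ (41 * K)
  obtain ⟨η₁, θ, N₁, hη₁, hθ, hM⟩ := hMet Δ (1 / 3) γ (by norm_num) hγ Bool
  obtain ⟨κ, hκ, k1, k2, k3, k4⟩ : ∃ κ : ℝ, 0 < κ ∧ κ ≤ η₁ ∧ κ ≤ θ / 16 ∧ κ ≤ η' / 200 ∧
      κ ≤ 1 / 6 := by
    refine ⟨min (min η₁ (θ / 16)) (min (η' / 200) (1 / 6)), by positivity, ?_, ?_, ?_, ?_⟩
    · exact (min_le_left _ _).trans (min_le_left _ _)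
    · exact (min_le_left _ _).trans (min_le_right _ _)
    · exact (min_le_right _ _).trans (min_le_left _ _)
    · exact (min_le_right _ _).trans (min_le_right _ _)
  obtain ⟨κ₀, c, N₂, hκ₀, hH2⟩ := hH κ hκ
  obtain ⟨N₃, hN₃⟩ := ts_log (5000 * K) (min (η' / 2) (θ / 2)) (by positivity)
  refine ⟨η, κ₀, c, max (max N₁ N₂) (max N₃ K), hη, hκ₀, ?_⟩
  intro n hn V _ hV D₀ B₀ C₀ hnb hS T₀ hT₀ hsrc hsnk
  have h1 : N₁ ≤ n := (le_max_left _ _).trans ((le_max_left _ _).trans hn)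
  have h2 : N₂ ≤ n := (le_max_right _ _).trans ((le_max_left _ _).trans hn)
  have h3 : N₃ ≤ n := (le_max_left _ _).trans ((le_max_right _ _).trans hn)
  have h4 : K ≤ n := (le_max_right _ _).trans ((le_max_right _ _).trans hn)
  have hn0 : (0 : ℝ) ≤ n := by positivity
  have hlog := hN₃ n h3
  obtain ⟨D, B, C, lab, G, K', dl, lv, kd, F, τ, ω, U, W, hD, hHost⟩ :=
    hH2 V (hV ▸ h2) D₀ B₀ C₀ hnb (by rw [hV]; exact hS)
  rw [hV] at hHost
  set k : ℕ := K * (Nat.log 2 n + 1) with hk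
  have hk8 : 41 * K * (Nat.log 2 n + 1) = 41 * k := by rw [hk]; ring
  rw [hk8] at hHost
  have hkR : (k : ℝ) = (K : ℝ) * ((Nat.log 2 n : ℝ) + 1) := by rw [hk]; push_cast; ring
  have hlog' : 5000 * (k : ℝ) ≤ min (η' / 2) (θ / 2) * n := by
    refine le_trans ?_ hlog
    rw [hkR]
    push_cast
    linarith
  have hl1 : 5000 * (k : ℝ) ≤ η' / 2 * n :=
    hlog'.trans (mul_le_mul_of_nonneg_right (min_le_left _ _) hn0)
  have hl2 : 5000 * (k : ℝ) ≤ θ / 2 * n :=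
    hlog'.trans (mul_le_mul_of_nonneg_right (min_le_right _ _) hn0)
  have hk0 : (0 : ℝ) ≤ k := by positivity
  have hKk : (K : ℤ) ≤ k := by
    have : K ≤ k := by rw [hk]; exact Nat.le_mul_of_pos_right _ (by omega)
    exact_mod_cast this
  have hκn : κ * (n : ℝ) ≤ η' / 200 * n := mul_le_mul_of_nonneg_right k3 hn0
  have key : ∀ T : PTree n, T.Deg Δ →
      ((univ.filter fun v => T.Src v).card : ℝ) ≤ η * (n : ℝ) →
      ((univ.filter fun v => T.Snk v).card : ℝ) ≤ η * (n : ℝ) → T.Emb D := by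
    intro T hT hs1 hs2
    obtain ⟨m, hm, hA⟩ := hAIP n Δ T hT V hV D B C lab G K' dl lv kd F τ ω U W γ κ k hHost
    obtain ⟨side, Tc, A, seg, hTree, hTc, hbal, hMc⟩ := hT1 n T hT h4 hs1 hs2 kd hHost.cuts.ne m
      (by linarith)
    obtain ⟨Sp, ψ, side', Lf, lam, hSp, hData⟩ := hA side Tc A seg hTree hTc (hbal.trans hKk)
      (fun l => by
        refine le_trans ?_ (hMc l)
        linarith)
    refine r1_met hV hn0 hM h1 T hT D B C hHost.tc k1 k4 Sp ?_ ψ side' Lf lam hData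
    have : 3 * κ * (n : ℝ) ≤ θ / 2 * n := mul_le_mul_of_nonneg_right (by linarith) hn0
    linarith
  rcases hD with rfl | rfl
  · exact key T₀ hT₀ hsrc hsnk
  · refine x3_emb_rev (key T₀.rev (x3_deg_rev hT₀) ?_ ?_)
    · simpa only [x3_src_rev] using hsnk
    · simpa only [x3_snk_rev] using hsrc

theorem regI_of (hMet : StMet) (hTIS : StTIS) (hHIS : StHIS) (hAIS : StAIS) (hTIP : StTIP)
    (hHIP : StHIP) (hAIP : StAIP) : StRI := by
  intro Δ
  obtain ⟨η, κ₁, c₁, N₁, hη, hκ₁, H1⟩ := r1_caseP hMet hTIP hHIP hAIP Δ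
  obtain ⟨κ₂, c₂, N₂, hκ₂, H2⟩ := r1_caseS hMet hTIS hHIS hAIS Δ η hη
  refine ⟨min κ₁ κ₂, max c₁ c₂, max (max N₁ N₂) 1, lt_min hκ₁ hκ₂, ?_⟩
  intro n hn V _ hV D B C hdisj hcB hcC hmB hmC hS T hT
  have hn1 : N₁ ≤ n := le_trans (le_max_left _ _) (le_trans (le_max_left _ _) hn)
  have hn2 : N₂ ≤ n := le_trans (le_max_right _ _) (le_trans (le_max_left _ _) hn)
  have hn3 : 1 ≤ n := le_trans (le_max_right _ _) hn
  have hlog : 0 ≤ Real.log n := Real.log_nonneg (by exact_mod_cast hn3)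
  have hS1 : SemiDeg D (c₁ * Real.log n) :=
    x3_semi_mono hS (mul_le_mul_of_nonneg_right (le_max_left _ _) hlog)
  have hS2 : SemiDeg D (c₂ * Real.log n) :=
    x3_semi_mono hS (mul_le_mul_of_nonneg_right (le_max_right _ _) hlog)
  have htc : TwoCl D B C (min κ₁ κ₂) := by
    refine ⟨hdisj, ?_, ?_, ?_, ?_⟩ <;> rw [hV]
    · exact hcB
    · exact hcC
    · exact hmB
    · exact hmC
  have hb1 := r1_tc_mono htc (min_le_left κ₁ κ₂)
  have hb2 := r1_tc_mono htc (min_le_right κ₁ κ₂)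
  by_cases ha : η * (n : ℝ) ≤ ((univ.filter fun v => T.Src v).card : ℝ)
  · exact H2 n hn2 V hV D B C hb2 hS2 T hT ha
  by_cases hb : η * (n : ℝ) ≤ ((univ.filter fun v => T.Snk v).card : ℝ)
  · apply x3_emb_rev
    apply H2 n hn2 V hV (rev D) B C (r1_tc_rev hb2) (x3_semi_rev hS2) T.rev (x3_deg_rev hT)
    simpa only [x3_src_rev] using hb
  · push Not at ha hb
    exact H1 n hn1 V hV D B C hb1 hS1 T hT ha.le hb.le

end

end OT
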