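import Pool.Agent.Helper27.EX.RegI
import Pool.Agent.Helper62.EX.TC
import Pool.Agent.Helper77.EX.TIS
import Pool.Agent.Helper75.EX.TIP
import Pool.Agent.Helper43.EX.HIS
import Pool.Agent.Helper14.EX.AIS
import Pool.Agent.Helper37.EX.HIP
import Pool.Agent.Helper14.EX.AIP
import Pool.Agent.Helper97.EX3.MET
import Pool.Agent.Helper73.EX3.META

/-!
# MP_2857a5_co : the first extremal case, complete
-/

set_option autoImplicit false

open Finset
open scoped Classical

namespace OT

noncomputable section

/-- The first extremal case. -/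
theorem regI : StRI := by
  refine regI_of (x3_met x3_metA) ?_ ?_ ?_ ?_ ?_ ?_
  · intro Δ η hη
    exact treeIS_of (fun Δ R η hη => treeC Δ R η hη) Δ η hη
  · intro Δ K
    exact hostIS Δ K
  · intro n Δ T hT V _ hV D B C X G K dl lv kd F U γ κ k hHost
    exact asmIS Δ T hT hV D B C X G K dl lv kd F U γ κ k hHost
  · intro Δ
    exact treeIP_of Δ (treeC Δ 8)
  · intro Δ K
    exact hostIP Δ K
  · intro n Δ T hT V _ hV D B C lab G K dl lv kd F τ ω U W γ κ k hHost
    exact asmIP Δ T hT hV D B C lab G K dl lv kd F τ ω U W γ κ k hHost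

end

end OT
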