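import Pool.Agent.Helper14.EX.LAY
import Pool.Agent.Helper75.EX.TP
import Pool.Agent.Helper57.EX.TS
import Pool.Agent.Helper28.EX.HS
import Pool.Agent.Helper32.EX.HP
import Pool.Agent.Helper23.EX.SG
import Pool.Agent.Helper20.EX3.Final

/-!
# MP_2857a5_co : the second extremal case (near-bipartite digraphs)
-/

set_option autoImplicit false

open Finset
open scoped Classical

namespace OT

noncomputable section

/-! ### Monotonicity and reversal -/

theorem r2_nb_mono {V : Type} [Fintype V] {D : V → V → Prop} {B C : Finset V} {κ κ' : ℝ}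
    (h : NearBip D B C κ) (hk : κ ≤ κ') : NearBip D B C κ' := by
  have hn : (0 : ℝ) ≤ (Fintype.card V : ℝ) := by positivity
  have h1 : κ * (Fintype.card V : ℝ) ≤ κ' * (Fintype.card V : ℝ) :=
    mul_le_mul_of_nonneg_right hk hn
  refine ⟨h.disj, ?_, ?_, fun s b hb => (h.missB s b hb).trans h1,
    fun s c hc => (h.missC s c hc).trans h1⟩
  · have := h.cardB
    nlinarith
  · have := h.cardC
    nlinarith

theorem r2_nb_rev {V : Type} [Fintype V] {D : V → V → Prop} {B C : Finset V} {κ : ℝ}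
    (h : NearBip D B C κ) : NearBip (rev D) B C κ := by
  refine ⟨h.disj, h.cardB, h.cardC, fun s b hb => ?_, fun s c hc => ?_⟩
  · rw [x3_adjN_rev]
    exact h.missB _ b hb
  · rw [x3_adjN_rev]
    exact h.missC _ c hc

theorem r2_emb_rev' {n : ℕ} {V : Type} [Fintype V] {T : PTree n} {D : V → V → Prop}
    (h : T.rev.Emb (rev D)) : T.Emb D := x3_emb_rev h

/-- The statement of the module AS. -/
def StAsmS : Prop := ∀ (n Δ : ℕ) (T : PTree n), T.Deg Δ → ∀ (V : Type) [Fintype V],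
    Fintype.card V = n → ∀ (D : V → V → Prop) (τ : Bool) (K : ℕ) (η γ κ : ℝ)
    (pos : Fin n → Bool) (Tl : Finset (Fin n)) (hd : Fin n → Fin n) (M₁ M₀ : Finset (Fin n)),
    TreeS T τ K η pos Tl hd M₁ M₀ → ∀ (B C X S S' : Finset V)
    (lv lv' : V → Fin (Δ + 1) → V),
    HostS D Δ B C X τ S S' lv lv' γ κ (2 * K * (Nat.log 2 n + 1)) →
    8 * κ ≤ η → 8 * K * ((Nat.log 2 n : ℝ) + 1) ≤ η * (n : ℝ) →
    ∃ (Sp : Finset (Fin n)) (ψ : Fin n → V) (Lf : Finset (Fin n)) (lam : Fin n → V),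
      (Sp.card : ℝ) ≤ 8 * κ * (n : ℝ) + 8 * K * ((Nat.log 2 n : ℝ) + 1) ∧
      MetData D T (fun b : Bool => if b = true then B else C) (fun a b => a ≠ b) γ Sp ψ pos Lf lam

/-- The statement of the module AP. -/
def StAsmP : Prop := ∀ (n Δ : ℕ) (T : PTree n), T.Deg Δ → ∀ (V : Type) [Fintype V],
    Fintype.card V = n → ∀ (D : V → V → Prop) (τ ω : Bool) (K : ℕ) (η γ κ : ℝ)
    (pos : Fin n → Bool) (Tl : Finset (Fin n)) (hd : Fin n → Fin n) (A : Finset (Fin n))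
    (seg : Fin n → ℕ → Fin n), TreeP T τ K η pos Tl hd A seg → ∀ (B C : Finset V)
    (o i : V → Bool) (S S' : Finset V) (lv lv' : V → Fin (Δ + 1) → V),
    HostP D Δ B C o i τ ω S S' lv lv' γ κ (2 * K * (Nat.log 2 n + 1)) →
    8 * κ ≤ η → 16 * K * ((Nat.log 2 n : ℝ) + 1) ≤ η * (n : ℝ) →
    ∃ (Sp : Finset (Fin n)) (ψ : Fin n → V) (lab : Fin n → Bool) (Lf : Finset (Fin n))
      (lam : Fin n → V),
      (Sp.card : ℝ) ≤ 8 * κ * (n : ℝ) + 16 * K * ((Nat.log 2 n : ℝ) + 1) ∧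
      MetData D T (fun b : Bool => if b = true then B else C) (fun a b => a ≠ b) γ Sp ψ lab Lf lam

/-- Application of the embedding theorem. -/
theorem r2_met {n : ℕ} {V : Type} [Fintype V] (hV : Fintype.card V = n) (hn0 : 0 ≤ (n : ℝ))
    {Δ : ℕ} {ρ η θ κ : ℝ} {N : ℕ} (hM : MetHolds Δ (1 / 3) ρ Bool η θ N) (hN : N ≤ n)
    (T : PTree n) (hT : T.Deg Δ) (D : V → V → Prop) (B C : Finset V) (hnb : NearBip D B C κ)
    (hκη : κ ≤ η) (hκ6 : κ ≤ 1 / 6) (Sp : Finset (Fin n)) (hSp : (Sp.card : ℝ) ≤ θ * n)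
    (ψ : Fin n → V) (lab : Fin n → Bool) (Lf : Finset (Fin n)) (lam : Fin n → V)
    (hD : MetData D T (fun b : Bool => if b = true then B else C) (fun a b => a ≠ b) ρ Sp ψ lab
      Lf lam) : T.Emb D := by
  have hB := hnb.cardB
  have hC := hnb.cardC
  rw [hV] at hB hC
  have e1 : κ * (n : ℝ) ≤ η * n := mul_le_mul_of_nonneg_right hκη hn0
  refine hM n hN T hT V hV D (fun b : Bool => if b = true then B else C) ?_ ?_
    (fun a b => a ≠ b) ?_ ?_ Sp ψ lab Lf lam hSp hD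
  · intro k l hkl
    cases k <;> cases l
    · exact absurd rfl hkl
    · simpa using hnb.disj.symm
    · simpa using hnb.disj
    · exact absurd rfl hkl
  · intro k
    cases k
    · simp only [Bool.false_eq_true, if_false]
      nlinarith
    · simp only [if_true]
      nlinarith
  · intro k l hkl w hw
    cases k <;> cases l
    · exact absurd rfl hkl
    · have := hnb.missC true w (by simpa using hw)
      rw [hV] at this
      simpa using this.trans e1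
    · have := hnb.missB true w (by simpa using hw)
      rw [hV] at this
      simpa using this.trans e1
    · exact absurd rfl hkl
  · intro k l hkl w hw
    cases k <;> cases l
    · exact absurd rfl hkl
    · have := hnb.missB false w (by simpa using hw)
      rw [hV] at this
      simpa using this.trans e1
    · have := hnb.missC false w (by simpa using hw)
      rw [hV] at this
      simpa using this.trans e1
    · exact absurd rfl hkl

/-- Many sources. -/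
theorem r2_caseS (hMet : StMet) (hAS : StAsmS) (Δ : ℕ) (η : ℝ) (hη : 0 < η) :
    ∃ (κ c : ℝ) (N : ℕ), 0 < κ ∧ ∀ n : ℕ, N ≤ n →
    ∀ (V : Type) [Fintype V], Fintype.card V = n → ∀ (D : V → V → Prop) (B C : Finset V),
    NearBip D B C κ → SemiDeg D (c * Real.log n) → ∀ T : PTree n, T.Deg Δ →
    η * (n : ℝ) ≤ ((univ.filter fun v => T.Src v).card : ℝ) → T.Emb D := by
  obtain ⟨K, η', hη', hT1⟩ := ts_main Δ η hη layout
  obtain ⟨γ, hγ, hH⟩ := hostS Δ (2 * K)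
  obtain ⟨η₁, θ, N₁, hη₁, hθ, hM⟩ := hMet Δ (1 / 3) γ (by norm_num) hγ Bool
  obtain ⟨κ, hκ, k1, k2, k3, k4⟩ : ∃ κ : ℝ, 0 < κ ∧ κ ≤ η₁ ∧ κ ≤ θ / 16 ∧ κ ≤ η' / 8 ∧
      κ ≤ 1 / 6 := by
    refine ⟨min (min η₁ (θ / 16)) (min (η' / 8) (1 / 6)), by positivity, ?_, ?_, ?_, ?_⟩
    · exact (min_le_left _ _).trans (min_le_left _ _)
    · exact (min_le_left _ _).trans (min_le_right _ _)
    · exact (min_le_right _ _).trans (min_le_left _ _)
    · exact (min_le_right _ _).trans (min_le_right _ _)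
  obtain ⟨κ₀, c, N₂, hκ₀, hH2⟩ := hH κ hκ
  obtain ⟨N₃, hN₃⟩ := ts_log (8 * K) (min η' (θ / 2)) (by positivity)
  refine ⟨κ₀, c, max (max N₁ N₂) (max N₃ K), hκ₀, ?_⟩
  intro n hn V _ hV D B₀ C₀ hnb hS T hT hsrc
  have h1 : N₁ ≤ n := (le_max_left _ _).trans ((le_max_left _ _).trans hn)
  have h2 : N₂ ≤ n := (le_max_right _ _).trans ((le_max_left _ _).trans hn)
  have h3 : N₃ ≤ n := (le_max_left _ _).trans ((le_max_right _ _).trans hn)
  have h4 : K ≤ n := (le_max_right _ _).trans ((le_max_right _ _).trans hn)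
  have hn0 : (0 : ℝ) ≤ n := by positivity
  have hlog := hN₃ n h3
  obtain ⟨B, C, X, τ, S, S', lv, lv', hHost⟩ := hH2 V (hV ▸ h2) D B₀ C₀ hnb (by rw [hV]; exact hS)
  rw [hV] at hHost
  obtain ⟨pos, Tl, hd, M₁, M₀, hTree⟩ := hT1 n T hT h4 hsrc τ
  have hl1 : 8 * (K : ℝ) * ((Nat.log 2 n : ℝ) + 1) ≤ η' * n := by
    refine le_trans ?_ (le_trans hlog ?_)
    · push_cast; linarith
    · exact mul_le_mul_of_nonneg_right (min_le_left _ _) hn0
  have hl2 : 8 * (K : ℝ) * ((Nat.log 2 n : ℝ) + 1) ≤ θ / 2 * n := by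
    refine le_trans ?_ (le_trans hlog ?_)
    · push_cast; linarith
    · exact mul_le_mul_of_nonneg_right (min_le_right _ _) hn0
  obtain ⟨Sp, ψ, Lf, lam, hSp, hData⟩ := hAS n Δ T hT V hV D τ K η' γ κ pos Tl hd M₁ M₀ hTree
    B C X S S' lv lv' hHost (by linarith) hl1
  refine r2_met hV hn0 hM h1 T hT D B C hHost.nb k1 k4 Sp ?_ ψ pos Lf lam hData
  have : 8 * κ * (n : ℝ) ≤ θ / 2 * n := mul_le_mul_of_nonneg_right (by linarith) hn0
  linarith

/-- Few sources and few sinks. -/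
theorem r2_caseP (hMet : StMet) (hAP : StAsmP) (Δ : ℕ) :
    ∃ (η κ c : ℝ) (N : ℕ), 0 < η ∧ 0 < κ ∧ ∀ n : ℕ, N ≤ n →
    ∀ (V : Type) [Fintype V], Fintype.card V = n → ∀ (D : V → V → Prop) (B C : Finset V),
    NearBip D B C κ → SemiDeg D (c * Real.log n) → ∀ T : PTree n, T.Deg Δ →
    ((univ.filter fun v => T.Src v).card : ℝ) ≤ η * (n : ℝ) →
    ((univ.filter fun v => T.Snk v).card : ℝ) ≤ η * (n : ℝ) → T.Emb D := by
  obtain ⟨η, K, η', hη, hη', hT1⟩ := treeP_of Δ (layout Δ 8 1 one_pos) (segments Δ)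
  obtain ⟨γ, hγ, hH⟩ := hostP Δ (2 * K)
  obtain ⟨η₁, θ, N₁, hη₁, hθ, hM⟩ := hMet Δ (1 / 3) γ (by norm_num) hγ Bool
  obtain ⟨κ, hκ, k1, k2, k3, k4⟩ : ∃ κ : ℝ, 0 < κ ∧ κ ≤ η₁ ∧ κ ≤ θ / 16 ∧ κ ≤ η' / 8 ∧
      κ ≤ 1 / 6 := by
    refine ⟨min (min η₁ (θ / 16)) (min (η' / 8) (1 / 6)), by positivity, ?_, ?_, ?_, ?_⟩
    · exact (min_le_left _ _).trans (min_le_left _ _)
    · exact (min_le_left _ _).trans (min_le_right _ _)
    · exact (min_le_right _ _).trans (min_le_left _ _)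
    · exact (min_le_right _ _).trans (min_le_right _ _)
  obtain ⟨κ₀, c, N₂, hκ₀, hH2⟩ := hH κ hκ
  obtain ⟨N₃, hN₃⟩ := ts_log (16 * K) (min η' (θ / 2)) (by positivity)
  refine ⟨η, κ₀, c, max (max N₁ N₂) (max N₃ K), hη, hκ₀, ?_⟩
  intro n hn V _ hV D₀ B₀ C₀ hnb hS T₀ hT₀ hsrc hsnk
  have h1 : N₁ ≤ n := (le_max_left _ _).trans ((le_max_left _ _).trans hn)
  have h2 : N₂ ≤ n := (le_max_right _ _).trans ((le_max_left _ _).trans hn)
  have h3 : N₃ ≤ n := (le_max_left _ _).trans ((le_max_right _ _).trans hn)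
  have h4 : K ≤ n := (le_max_right _ _).trans ((le_max_right _ _).trans hn)
  have hn0 : (0 : ℝ) ≤ n := by positivity
  have hlog := hN₃ n h3
  obtain ⟨D, B, C, o, i, τ, ω, S, S', lv, lv', hD, hHost⟩ :=
    hH2 V (hV ▸ h2) D₀ B₀ C₀ hnb (by rw [hV]; exact hS)
  rw [hV] at hHost
  have hl1 : 16 * (K : ℝ) * ((Nat.log 2 n : ℝ) + 1) ≤ η' * n := by
    refine le_trans ?_ (le_trans hlog ?_)
    · push_cast; linarith
    · exact mul_le_mul_of_nonneg_right (min_le_left _ _) hn0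
  have hl2 : 16 * (K : ℝ) * ((Nat.log 2 n : ℝ) + 1) ≤ θ / 2 * n := by
    refine le_trans ?_ (le_trans hlog ?_)
    · push_cast; linarith
    · exact mul_le_mul_of_nonneg_right (min_le_right _ _) hn0
  have key : ∀ T : PTree n, T.Deg Δ →
      ((univ.filter fun v => T.Src v).card : ℝ) ≤ η * (n : ℝ) →
      ((univ.filter fun v => T.Snk v).card : ℝ) ≤ η * (n : ℝ) → T.Emb D := by
    intro T hT hs1 hs2
    obtain ⟨pos, Tl, hd, A, seg, hTree⟩ := hT1 n T hT h4 hs1 hs2 τ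
    obtain ⟨Sp, ψ, lab, Lf, lam, hSp, hData⟩ := hAP n Δ T hT V hV D τ ω K η' γ κ pos Tl hd A seg
      hTree B C o i S S' lv lv' hHost (by linarith) hl1
    refine r2_met hV hn0 hM h1 T hT D B C hHost.nb k1 k4 Sp ?_ ψ lab Lf lam hData
    have : 8 * κ * (n : ℝ) ≤ θ / 2 * n := mul_le_mul_of_nonneg_right (by linarith) hn0
    linarith
  rcases hD with rfl | rfl
  · exact key T₀ hT₀ hsrc hsnk
  · refine x3_emb_rev (key T₀.rev (x3_deg_rev hT₀) ?_ ?_)
    · simpa only [x3_src_rev] using hsnk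
    · simpa only [x3_snk_rev] using hsrc

theorem regII_of (hMet : StMet) (hAS : StAsmS) (hAP : StAsmP) : StRII := by
  intro Δ
  obtain ⟨η, κ₁, c₁, N₁, hη, hκ₁, H1⟩ := r2_caseP hMet hAP Δ
  obtain ⟨κ₂, c₂, N₂, hκ₂, H2⟩ := r2_caseS hMet hAS Δ η hη
  refine ⟨min κ₁ κ₂, max c₁ c₂, max (max N₁ N₂) 1, lt_min hκ₁ hκ₂, ?_⟩
  intro n hn V _ hV D B C hnb hS T hT
  have hn1 : N₁ ≤ n := le_trans (le_max_left _ _) (le_trans (le_max_left _ _) hn)
  have hn2 : N₂ ≤ n := le_trans (le_max_right _ _) (le_trans (le_max_left _ _) hn)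
  have hn3 : 1 ≤ n := le_trans (le_max_right _ _) hn
  have hlog : 0 ≤ Real.log n := Real.log_nonneg (by exact_mod_cast hn3)
  have hS1 : SemiDeg D (c₁ * Real.log n) :=
    x3_semi_mono hS (mul_le_mul_of_nonneg_right (le_max_left _ _) hlog)
  have hS2 : SemiDeg D (c₂ * Real.log n) :=
    x3_semi_mono hS (mul_le_mul_of_nonneg_right (le_max_right _ _) hlog)
  have hb1 := r2_nb_mono hnb (min_le_left κ₁ κ₂)
  have hb2 := r2_nb_mono hnb (min_le_right κ₁ κ₂)
  by_cases ha : η * (n : ℝ) ≤ ((univ.filter fun v => T.Src v).card : ℝ)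
  · exact H2 n hn2 V hV D B C hb2 hS2 T hT ha
  by_cases hb : η * (n : ℝ) ≤ ((univ.filter fun v => T.Snk v).card : ℝ)
  · apply x3_emb_rev
    apply H2 n hn2 V hV (rev D) B C (r2_nb_rev hb2) (x3_semi_rev hS2) T.rev (x3_deg_rev hT)
    simpa only [x3_src_rev] using hb
  · push Not at ha hb
    exact H1 n hn1 V hV D B C hb1 hS1 T hT ha.le hb.le

end

end OT
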