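import Pool.Agent.Helper27.EX.RegII
import Pool.Agent.Helper81.EX.AS
import Pool.Agent.Helper48.EX.AP
import Pool.Agent.Helper97.EX3.MET
import Pool.Agent.Helper73.EX3.META

/-!
# MP_2857a5_co : the second extremal case, complete
-/

set_option autoImplicit false

open Finset
open scoped Classical

namespace OT

noncomputable section

theorem r2_asmS : StAsmS := by
  intro n Δ T hT V _ hV D τ K η γ κ pos Tl hd M₁ M₀ hTree B C X S S' lv lv' hHost hκ hn
  exact asmS Δ T hT hV D τ K η γ κ pos Tl hd M₁ M₀ hTree B C X S S' lv lv' hHost hκ hn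

theorem r2_asmP : StAsmP := by
  intro n Δ T hT V _ hV D τ ω K η γ κ pos Tl hd A seg hTree B C o i S S' lv lv' hHost hκ hn
  exact asmP Δ T hT hV D τ ω K η γ κ pos Tl hd A seg hTree B C o i S S' lv lv' hHost hκ hn

/-- The second extremal case. -/
theorem regII : StRII := regII_of (x3_met x3_metA) r2_asmS r2_asmP

end

end OT
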